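import Pool.Agent.Helper688_Crit.GLOB
import Pool.Agent.Helper688_Crit.BEZ
import Pool.Agent.Helper688_Crit.AREA
import Pool.Agent.Helper688_Crit.DET
import Pool.Agent.Helper688_Crit.RAT
import Pool.Agent.Helper688_Crit.REG

/-!
# Lin's conjecture on critical sets of harmonic functions up to a squared logarithm
-/

set_option autoImplicit false

open MeasureTheory

namespace Pool.Agent.Results.MP_8465a2_an.LinLog

open Pool.Agent.Helper688.Crit

/-- For each `n ≥ 3` there is `C` such that every non-constant harmonic `u` on the unit ball of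
`ℝⁿ` has critical set in the half ball with `(n-2)`-Hausdorff measure at most
`C N² (log (N + 2))²`, where `N ≥ log (sup_{B₁} |∇u| / sup_{B_{1/2}} |∇u|)`. -/
theorem result :
    ∀ n : ℕ, 3 ≤ n → ∃ C : ℝ, ∀ u : EuclideanSpace ℝ (Fin n) → ℝ,
      ContDiffOn ℝ 2 u (Metric.ball (0 : EuclideanSpace ℝ (Fin n)) 1) →
      (∀ x ∈ Metric.ball (0 : EuclideanSpace ℝ (Fin n)) 1,
        ∑ i : Fin n, iteratedFDeriv ℝ 2 u x
          (fun _ => EuclideanSpace.single i (1 : ℝ)) = 0) →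
      (∃ x ∈ Metric.ball (0 : EuclideanSpace ℝ (Fin n)) 1,
        ∃ y ∈ Metric.ball (0 : EuclideanSpace ℝ (Fin n)) 1, u x ≠ u y) →
      ∀ N : ℝ,
        (∀ x ∈ Metric.ball (0 : EuclideanSpace ℝ (Fin n)) 1,
          ‖fderiv ℝ u x‖ ≤ Real.exp N *
            ⨆ y : Metric.ball (0 : EuclideanSpace ℝ (Fin n)) (1 / 2),
              ‖fderiv ℝ u (y : EuclideanSpace ℝ (Fin n))‖) →
        Measure.hausdorffMeasure ((n : ℝ) - 2)
          ({x : EuclideanSpace ℝ (Fin n) | fderiv ℝ u x = 0} ∩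
            Metric.ball (0 : EuclideanSpace ℝ (Fin n)) (1 / 2))
          ≤ ENNReal.ofReal (C * (N ^ 2 * (Real.log (N + 2)) ^ 2)) := by
  intro n hn
  have hBEZ : RAT.StBEZ := fun n k S p q hp hq b F hF => BEZ.bezout n k S p q hp hq b F hF
  have hAREA : RAT.StAREA := fun n m G U hU hG hm Om hOm hOU Bx hBx hmaps =>
    AREA.area_le n m G U hU hG hm Om hOm hOU Bx hBx hmaps
  have hD2 : RAT.StDET2 := fun n i j hij f x hi hj => DET.det_two n i j hij f x hi hj
  have hD3 : RAT.StDET3 := fun n q i j hqi hqj hij f x hq hi hj =>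
    DET.det_three n q i j hqi hqj hij f x hq hi hj
  have hR2 : EE.StRAT2 := fun n k i j hij pa pb pc ha hb hc Om hOm hO =>
    RAT.rat2 hBEZ hAREA hD2 n k i j hij pa pb pc ha hb hc Om hOm hO
  have hR3 : EE.StPOL3 := fun n k q i j hqi hqj hij p1 p2 p3 h1 h2 h3 Om hOm ρ hρ hO =>
    RAT.pol3 hBEZ hAREA hD3 n k q i j hqi hqj hij p1 p2 p3 h1 h2 h3 Om hOm ρ hρ hO
  have hPOW : LOW.StPOW := fun n f z A r hA hr hf hb => POW.powser n f z A r hA hr hf hb
  have hSCU : LOW.StSCU := fun n hn S hS x₁ r τ₀ hr h0 h1 Y hY hYr κ h =>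
    SC.scale_up n hn S hS x₁ r τ₀ hr h0 h1 Y hY hYr κ h
  have hLR : PROP.StLR := fun m b μ η K hb hμ hK U hU hIU h hh hd S hS hvol hη =>
    LR.lagrange_remez m b μ η K hb hμ hK U hU hIU h hh hd S hS hvol hη
  have hMVP : FAM.StMVP := fun n hn => MVP.mvp n hn
  have hREG : FAM.StREG := fun n hn η hη h0 h1 hint => REG.reg n hn η hη h0 h1 hint
  exact GLOB.main hR2 hR3 hPOW hSCU hLR hMVP hREG n (by omega)

end Pool.Agent.Results.MP_8465a2_an.LinLog
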